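import Pool.Agent.K1H46.CP.Stm
import Pool.Agent.R365.QP.Up

/-! The binary cubic form of a cubic number. -/

set_option autoImplicit false

namespace Pool.Agent.K1H46.CP

open NumberField IsDedekindDomain Finset Pool.Agent.H691R3 Pool.Agent.W223.AK Polynomial
open Pool.Agent.W222.UABC

/-- the cubic polynomial of a point of a cubic field -/
theorem cubic {K : Type} [Field K] [NumberField K] (hK : Module.finrank ℚ K = 3) {t : K}
    (ht' : Pt t) : ∃ A B C D : ℤ, A ≠ 0 ∧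
      |(A : ℝ)| ≤ 32 * Real.exp (ht t) ∧ |(B : ℝ)| ≤ 32 * Real.exp (ht t) ∧
      |(C : ℝ)| ≤ 32 * Real.exp (ht t) ∧ |(D : ℝ)| ≤ 32 * Real.exp (ht t) ∧
      (A : K) * t ^ 3 + B * t ^ 2 + C * t + D = 0 := by
  obtain ⟨P, hP⟩ := exists_isP ∅ ht'
  obtain ⟨z, χ, h1, h2, h3, h4, h5, h6, h7⟩ := data ht' hP
  rw [hK] at h2 h7
  have hlen : Real.log (nn (P 1)) ≤ ht t + 3 * Real.log 2 := by
    rw [log_nn]
    have := len_le ht' hP 1
    rw [cS_empty, hK] at this
    push_cast at this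
    linarith
  have hN0 : (0 : ℝ) < nn (P 1) := by exact_mod_cast nn_pos (P 1)
  have hN : (nn (P 1) : ℝ) ≤ 8 * Real.exp (ht t) := by
    rw [← Real.exp_log hN0]
    refine (Real.exp_le_exp.2 hlen).trans (le_of_eq ?_)
    rw [Real.exp_add, mul_comm (Real.exp (ht t))]
    congr 1
    rw [show (3 : ℝ) * Real.log 2 = Real.log (2 ^ 3) by rw [Real.log_pow]; norm_num,
      Real.exp_log (by norm_num)]
    norm_num
  -- the coefficients of `χ`
  obtain ⟨u, v, w, huv⟩ : ∃ u v w : ℚ, χ = X ^ 3 + Polynomial.C u * X ^ 2 + Polynomial.C v * X +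
      Polynomial.C w := by
    refine ⟨χ.coeff 2, χ.coeff 1, χ.coeff 0, ?_⟩
    have hc3 : χ.coeff 3 = 1 := by
      have := h1.coeff_natDegree
      rw [h2] at this
      exact this
    ext k
    rcases k with _ | _ | _ | _ | k
    · simp
    · simp
    · simp
    · simp [hc3]
    · have : χ.coeff (k + 4) = 0 := by
        apply Polynomial.coeff_eq_zero_of_natDegree_lt
        omega
      rw [this]
      simp [coeff_X_pow]
  have hz0 : (z 0 : ℚ) = (nn (P 1) : ℚ) * w := by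
    rw [h4 0, huv]
    simp
  have hz1 : (z 1 : ℚ) = (nn (P 1) : ℚ) * (1 + u + v + w) := by
    rw [h4 1, huv]
    simp
  have hz2 : (z (-1) : ℚ) = (nn (P 1) : ℚ) * (-1 + u - v + w) := by
    rw [h4 (-1), huv]
    simp
    left
    ring
  have hroot : t ^ 3 + (u : K) * t ^ 2 + (v : K) * t + (w : K) = 0 := by
    rw [huv] at h3
    simpa [Polynomial.aeval_def] using h3
  have hexp : 0 < Real.exp (ht t) := Real.exp_pos _
  have hb0 := h7 0
  have hb1 := h7 1
  have hb2 := h7 (-1)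
  norm_num at hb0 hb1 hb2
  have e0 : ((z 0 : ℤ) : K) = (nn (P 1) : K) * (w : K) := by
    exact_mod_cast congrArg (Rat.cast : ℚ → K) hz0
  have e1 : ((z 1 : ℤ) : K) = (nn (P 1) : K) * (1 + (u : K) + (v : K) + (w : K)) := by
    exact_mod_cast congrArg (Rat.cast : ℚ → K) hz1
  have e2 : ((z (-1) : ℤ) : K) = (nn (P 1) : K) * (-1 + (u : K) - (v : K) + (w : K)) := by
    have := congrArg (Rat.cast : ℚ → K) hz2
    push_cast at this
    exact this
  refine ⟨2 * (nn (P 1) : ℤ), z 1 + z (-1) - 2 * z 0, z 1 - z (-1) - 2 * nn (P 1), 2 * z 0,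
    ?_, ?_, ?_, ?_, ?_, ?_⟩
  · have := nn_pos (P 1)
    positivity
  · push_cast
    rw [abs_of_pos (by positivity)]
    linarith
  · push_cast
    rw [abs_le] at hb0 hb1 hb2 ⊢
    constructor <;> linarith [hb0.1, hb0.2, hb1.1, hb1.2, hb2.1, hb2.2]
  · push_cast
    rw [abs_le] at hb0 hb1 hb2 ⊢
    constructor <;> linarith [hb0.1, hb0.2, hb1.1, hb1.2, hb2.1, hb2.2]
  · push_cast
    rw [abs_le] at hb0 ⊢
    constructor <;> linarith [hb0.1, hb0.2]
  · push_cast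
    rw [e0, e1, e2]
    linear_combination 2 * (nn (P 1) : K) * hroot

/-- a cubic number is not a root of a reducible cubic form -/
theorem noRoot_of (hD : S_DEG) {K : Type} [Field K] [NumberField K]
    (hK : Module.finrank ℚ K = 3) {t : K} (hirr : ∀ q : ℚ, t ≠ algebraMap ℚ K q) {v : Q4}
    (ha : v.1 ≠ 0) (h : (v.1 : K) * t ^ 3 + v.2.1 * t ^ 2 + v.2.2.1 * t + v.2.2.2 = 0) :
    NoRoot v := by
  obtain ⟨a, b, c, d⟩ := v
  simp only at ha h
  intro r s hrs hev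
  unfold ev at hev
  simp only at hev
  by_cases hs : s = 0
  · subst hs
    have hr : r ≠ 0 := by
      rintro rfl
      simp at hrs
    have : a * r ^ 3 = 0 := by linarith
    exact ha ((mul_eq_zero.1 this).resolve_right (pow_ne_zero 3 hr))
  · have hsK : (s : K) ≠ 0 := by exact_mod_cast hs
    have hevK : (a : K) * r ^ 3 + b * r ^ 2 * s + c * r * s ^ 2 + d * s ^ 3 = 0 := by
      exact_mod_cast congrArg (Int.cast : ℤ → K) hev
    have hprod : ((s : K) * t - r) * (((a * s ^ 2 : ℤ) : K) * t ^ 2 +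
        ((a * r * s + b * s ^ 2 : ℤ) : K) * t + ((a * r ^ 2 + b * r * s + c * s ^ 2 : ℤ) : K)) =
        0 := by
      push_cast
      linear_combination (s : K) ^ 3 * h - hevK
    rcases mul_eq_zero.1 hprod with h1 | h1
    · apply hirr ((r : ℚ) / s)
      rw [map_div₀, map_intCast, map_intCast, eq_div_iff hsK]
      linear_combination h1
    · have := (hD K hK t hirr _ _ _ h1).1
      exact (mul_ne_zero ha (pow_ne_zero 2 hs)) this

theorem cond_le {K : Type} [Field K] [NumberField K] (hK : Module.finrank ℚ K = 3) {x : K}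
    (h0 : x ≠ 0) (h1 : x ≠ 1) :
    conductor ![x, 1 - x, -1] ≤ 3 * W222.UABC.height ![x, 1 - x, -1] + 3 * Real.log 2 := by
  obtain ⟨hPt, hh, P, hP, hR⟩ := R365.QP.point_of h0 h1
  have hl : ∀ l, rl (P l) ≤ ht (x / (1 - x)) + 3 * Real.log 2 := by
    intro l
    have h1 := rl_le_len (P l)
    have h2 := len_le hPt hP l
    rw [cS_empty, hK] at h2
    push_cast at h2
    linarith
  have k0 := hl 0
  have k1 := hl 1
  have k2 := hl 2
  rw [hK] at hh hR
  push_cast at hh hR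
  linarith

theorem irr_frac {K : Type} [Field K] [NumberField K] {x : K}
    (hirr : ∀ q : ℚ, x ≠ algebraMap ℚ K q) (q : ℚ) : x / (1 - x) ≠ algebraMap ℚ K q := by
  have h1 : x ≠ 1 := fun h => hirr 1 (by rw [h, map_one])
  have h1' : (1 : K) - x ≠ 0 := sub_ne_zero.2 h1.symm
  intro hq
  rw [div_eq_iff h1'] at hq
  have hq1 : (1 : K) + algebraMap ℚ K q ≠ 0 := by
    intro h
    have h2 : algebraMap ℚ K q = -1 := by linear_combination h
    rw [h2] at hq
    have : (0 : K) = 1 := by linear_combination -hq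
    exact zero_ne_one this
  apply hirr (q / (1 + q))
  rw [map_div₀, map_add, map_one, eq_div_iff hq1]
  linear_combination hq

/-- the discriminant of a form with bounded coefficients -/
theorem dsc_le {A B C D : ℤ} {T : ℝ} (hT : 0 ≤ T) (hA : |(A : ℝ)| ≤ T) (hB : |(B : ℝ)| ≤ T)
    (hC : |(C : ℝ)| ≤ T) (hD : |(D : ℝ)| ≤ T) : |((dsc A B C D : ℤ) : ℝ)| ≤ 54 * T ^ 4 := by
  unfold dsc
  push_cast
  have e1 : |(B : ℝ) ^ 2 * C ^ 2| ≤ T ^ 2 * T ^ 2 := by
    rw [abs_mul, abs_pow, abs_pow]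
    gcongr
  have e2 : |4 * (A : ℝ) * C ^ 3| ≤ 4 * T * T ^ 3 := by
    rw [abs_mul, abs_mul, abs_pow, abs_of_pos (by norm_num : (0 : ℝ) < 4)]
    gcongr
  have e3 : |4 * (B : ℝ) ^ 3 * D| ≤ 4 * T ^ 3 * T := by
    rw [abs_mul, abs_mul, abs_pow, abs_of_pos (by norm_num : (0 : ℝ) < 4)]
    gcongr
  have e4 : |27 * (A : ℝ) ^ 2 * D ^ 2| ≤ 27 * T ^ 2 * T ^ 2 := by
    rw [abs_mul, abs_mul, abs_pow, abs_pow, abs_of_pos (by norm_num : (0 : ℝ) < 27)]
    gcongr
  have e5 : |18 * (A : ℝ) * B * C * D| ≤ 18 * T * T * T * T := by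
    rw [abs_mul, abs_mul, abs_mul, abs_mul, abs_of_pos (by norm_num : (0 : ℝ) < 18)]
    gcongr
  rw [abs_le] at e1 e2 e3 e4 e5 ⊢
  constructor <;> nlinarith [e1.1, e1.2, e2.1, e2.2, e3.1, e3.2, e4.1, e4.2, e5.1, e5.2]

/-- the form of a cubic number -/
theorem form_of (hD : S_DEG) (hI : S_IND) {K : Type} [Field K] [NumberField K]
    (hK : Module.finrank ℚ K = 3) {x : K} (hirr : ∀ q : ℚ, x ≠ algebraMap ℚ K q) {X : ℝ}
    (hX : 3 * W222.UABC.height ![x, 1 - x, -1] ≤ X) :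
    ∃ v : Q4, v.1 ≠ 0 ∧ NoRoot v ∧ |(v.1 : ℝ)| ≤ 32 * Real.exp X ∧
      |(v.2.1 : ℝ)| ≤ 32 * Real.exp X ∧ |(v.2.2.1 : ℝ)| ≤ 32 * Real.exp X ∧
      |(v.2.2.2 : ℝ)| ≤ 32 * Real.exp X ∧
      (v.1 : K) * (x / (1 - x)) ^ 3 + v.2.1 * (x / (1 - x)) ^ 2 + v.2.2.1 * (x / (1 - x)) +
        v.2.2.2 = 0 ∧ ∃ k : ℤ, k ≠ 0 ∧ dQ v = k ^ 2 * NumberField.discr K := by
  have h0 : x ≠ 0 := fun h => hirr 0 (by rw [h, map_zero])
  have h1 : x ≠ 1 := fun h => hirr 1 (by rw [h, map_one])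
  obtain ⟨hPt, hh, -⟩ := R365.QP.point_of h0 h1
  rw [hK] at hh
  push_cast at hh
  have he : 32 * Real.exp (ht (x / (1 - x))) ≤ 32 * Real.exp X :=
    mul_le_mul_of_nonneg_left (Real.exp_le_exp.2 (hh.trans hX)) (by norm_num)
  obtain ⟨A, B, C, D, k1, k2, k3, k4, k5, k6⟩ := cubic hK hPt
  refine ⟨(A, B, C, D), k1, noRoot_of hD hK (irr_frac hirr) k1 k6, k2.trans he, k3.trans he,
    k4.trans he, k5.trans he, k6, ?_⟩
  exact hI K hK _ (irr_frac hirr) A B C D k1 k6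

theorem disc_le (hD : S_DEG) (hI : S_IND) {K : Type} [Field K] [NumberField K]
    (hK : Module.finrank ℚ K = 3) {x : K} (hirr : ∀ q : ℚ, x ≠ algebraMap ℚ K q) :
    Real.log |(NumberField.discr K : ℝ)| ≤
      12 * W222.UABC.height ![x, 1 - x, -1] + Real.log (54 * 32 ^ 4) := by
  obtain ⟨v, -, -, k1, k2, k3, k4, -, k, hk, hv⟩ := form_of hD hI hK hirr le_rfl
  set X := 3 * W222.UABC.height ![x, 1 - x, -1] with hX
  have h1 := dsc_le (by positivity) k1 k2 k3 k4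
  have h2 : |(NumberField.discr K : ℝ)| ≤ 54 * (32 * Real.exp X) ^ 4 := by
    refine le_trans ?_ h1
    have h3 : ((dsc v.1 v.2.1 v.2.2.1 v.2.2.2 : ℤ) : ℝ) = (k : ℝ) ^ 2 * (NumberField.discr K : ℝ) := by
      exact_mod_cast congrArg (Int.cast : ℤ → ℝ) hv
    rw [h3, abs_mul, abs_of_nonneg (by positivity : (0 : ℝ) ≤ (k : ℝ) ^ 2)]
    have h4 : (1 : ℝ) ≤ (k : ℝ) ^ 2 := by
      have : (1 : ℤ) ≤ k ^ 2 := by
        have := Int.one_le_abs hk
        nlinarith [sq_abs k]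
      exact_mod_cast this
    have := abs_nonneg (NumberField.discr K : ℝ)
    nlinarith
  have hd0 : (0 : ℝ) < |(NumberField.discr K : ℝ)| := by
    have := one_le_disc (K := K)
    linarith
  have h5 := Real.log_le_log hd0 h2
  have h6 : (54 : ℝ) * (32 * Real.exp X) ^ 4 = (54 * 32 ^ 4) * Real.exp (4 * X) := by
    rw [mul_pow, ← Real.exp_nat_mul]
    push_cast
    ring
  rw [h6, Real.log_mul (by norm_num) (by positivity), Real.log_exp] at h5
  linarith

/-- `δ_K N ≤ C H ^ 7` -/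
theorem up (hD : S_DEG) (hI : S_IND) {K : Type} [Field K] [NumberField K]
    (hK : Module.finrank ℚ K = 3) {x : K} (hirr : ∀ q : ℚ, x ≠ algebraMap ℚ K q) :
    rootDisc K + conductor ![x, 1 - x, -1] ≤
      7 * W222.UABC.height ![x, 1 - x, -1] + (3 * Real.log 2 + Real.log (54 * 32 ^ 4) / 3) := by
  have h0 : x ≠ 0 := fun h => hirr 0 (by rw [h, map_zero])
  have h1 : x ≠ 1 := fun h => hirr 1 (by rw [h, map_one])
  have k1 := cond_le hK h0 h1
  have k2 := disc_le hD hI hK hirr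
  unfold rootDisc
  rw [hK]
  generalize Real.log (54 * 32 ^ 4) = L at k2 ⊢
  generalize Real.log |(NumberField.discr K : ℝ)| = L' at k2 ⊢
  push_cast
  linarith

end Pool.Agent.K1H46.CP
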