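import Pool.Agent.K1H46.CP.SmallD

/-! Cubic numbers whose fields have small discriminant, second part. -/

set_option autoImplicit false

namespace Pool.Agent.K1H46.CP

open NumberField IsDedekindDomain Finset Pool.Agent.H691R3 Pool.Agent.W223.AK
open Pool.Agent.W222.UABC Pool.Agent.W301.Lin

theorem inj_div (E : Finset (AlgebraicClosure ℚ)) (h : ∀ x ∈ E, x ≠ 1) :
    Set.InjOn (fun x : AlgebraicClosure ℚ => x / (1 - x)) (E : Set _) := inj_frac E h

/-- at most three numbers belong to a form -/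
theorem fib_card (E : Finset (AlgebraicClosure ℚ)) (Φ : AlgebraicClosure ℚ → Q4)
    (h : ∀ x ∈ E, x ≠ 1 ∧ (Φ x).1 ≠ 0 ∧ ((Φ x).1 : AlgebraicClosure ℚ) * (x / (1 - x)) ^ 3 +
      (Φ x).2.1 * (x / (1 - x)) ^ 2 + (Φ x).2.2.1 * (x / (1 - x)) + (Φ x).2.2.2 = 0) :
    E.card ≤ 3 * (E.image Φ).card := by
  classical
  apply Finset.card_le_mul_card_image
  intro b hb
  obtain ⟨x0, hx0, rfl⟩ := Finset.mem_image.1 hb
  set f : Polynomial (AlgebraicClosure ℚ) :=
    Polynomial.C ((Φ x0).1 : AlgebraicClosure ℚ) * Polynomial.X ^ 3 +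
    Polynomial.C ((Φ x0).2.1 : AlgebraicClosure ℚ) * Polynomial.X ^ 2 +
    Polynomial.C ((Φ x0).2.2.1 : AlgebraicClosure ℚ) * Polynomial.X +
    Polynomial.C ((Φ x0).2.2.2 : AlgebraicClosure ℚ) with hf
  have ha : ((Φ x0).1 : AlgebraicClosure ℚ) ≠ 0 := by
    exact_mod_cast (h x0 hx0).2.1
  have hdeg : f.natDegree = 3 := Polynomial.natDegree_cubic ha
  have hf0 : f ≠ 0 := by
    intro h
    rw [h] at hdeg
    simp at hdeg
  rw [← Finset.card_image_of_injOn (inj_div (E.filter fun x => Φ x = Φ x0) fun x hx =>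
    (h x (Finset.mem_filter.1 hx).1).1)]
  have hsub : (E.filter fun x => Φ x = Φ x0).image
      (fun x : AlgebraicClosure ℚ => x / (1 - x)) ⊆ f.roots.toFinset := by
    intro y hy
    obtain ⟨x, hx, rfl⟩ := Finset.mem_image.1 hy
    obtain ⟨hxE, hxx⟩ := Finset.mem_filter.1 hx
    rw [Multiset.mem_toFinset, Polynomial.mem_roots hf0, Polynomial.IsRoot, hf]
    have := (h x hxE).2.2
    rw [hxx] at this
    simpa using this
  refine (Finset.card_le_card hsub).trans ((Multiset.toFinset_card_le _).trans ?_)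
  rw [← hdeg]
  exact Polynomial.card_roots' _

/-- the box of the forms of the numbers -/
theorem box_of {v : Q4} {T : ℝ} (h1 : |(v.1 : ℝ)| ≤ T) (h2 : |(v.2.1 : ℝ)| ≤ T)
    (h3 : |(v.2.2.1 : ℝ)| ≤ T) (h4 : |(v.2.2.2 : ℝ)| ≤ T) : Box ⌊T⌋₊ v := by
  have key : ∀ z : ℤ, |(z : ℝ)| ≤ T → |z| ≤ (⌊T⌋₊ : ℤ) := by
    intro z hz
    have h5 : ((z.natAbs : ℕ) : ℝ) ≤ T := by
      rw [Nat.cast_natAbs]
      push_cast
      exact hz
    have h6 : z.natAbs ≤ ⌊T⌋₊ := Nat.le_floor h5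
    rw [Int.abs_eq_natAbs]
    exact_mod_cast h6
  exact ⟨key _ h1, key _ h2, key _ h3, key _ h4⟩

/-- the form of a cubic number, in the algebraic closure -/
def HasForm (N : ℕ) (H : Q4 → Prop) (x : AlgebraicClosure ℚ) (v : Q4) : Prop :=
  x ≠ 1 ∧ Box N v ∧ v.1 ≠ 0 ∧ NoRoot v ∧ (v.1 : AlgebraicClosure ℚ) * (x / (1 - x)) ^ 3 +
      v.2.1 * (x / (1 - x)) ^ 2 + v.2.2.1 * (x / (1 - x)) + v.2.2.2 = 0 ∧ H v

theorem small3 (hD : S_DEG) (hI : S_IND) (hT : S_TAIL) {η C1 : ℝ} (hη : 0 < η) (hη1 : η ≤ 1) :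
    ∃ M : ℝ, 0 < M ∧ ∀ (X : ℝ) (E : Finset (AlgebraicClosure ℚ)), 0 ≤ X →
      (∀ x ∈ E, Cub X (fun K _ _ => Real.log |(NumberField.discr K : ℝ)| ≤ (4 - η) * X + C1) x) →
      (E.card : ℝ) ≤ M * Real.exp ((4 - η / 200) * X) := by
  classical
  obtain ⟨C0, hC0⟩ : ∃ C0 : ℝ, C0 = max 1 (Real.exp C1) := ⟨_, rfl⟩
  have hC01 : 1 ≤ C0 := by rw [hC0]; exact le_max_left _ _
  have hC02 : Real.exp C1 ≤ C0 := by rw [hC0]; exact le_max_right _ _
  obtain ⟨M1, hM1, htail⟩ := hT η C0 hη hη1 hC01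
  obtain ⟨M2, hM2, htiny⟩ := tiny (ε := 1 / 8) (by norm_num)
  obtain ⟨C2, hC2⟩ : ∃ C2 : ℝ, C2 = Real.log (54 * 32 ^ 4) := ⟨_, rfl⟩
  have hC20 : 0 ≤ C2 := by rw [hC2]; exact Real.log_nonneg (by norm_num)
  refine ⟨3 * (M1 * 32 ^ (4 - η / 200)) + M2 * (C2 + 2) * Real.exp (5 / 4 * C2), by positivity, ?_⟩
  intro X E hX hE
  have hexp1 : 1 ≤ Real.exp X := Real.one_le_exp hX
  obtain ⟨N, hN⟩ : ∃ N : ℕ, N = ⌊32 * Real.exp X⌋₊ := ⟨_, rfl⟩
  have hNle : (N : ℝ) ≤ 32 * Real.exp X := by rw [hN]; exact Nat.floor_le (by positivity)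
  have hNge : Real.exp X ≤ N := by
    have := Nat.lt_floor_add_one (32 * Real.exp X)
    rw [← hN] at this
    linarith
  have hN1 : 1 ≤ N := by
    have : (1 : ℝ) ≤ N := hexp1.trans hNge
    exact_mod_cast this
  have hNp : (0 : ℝ) < N := by exact_mod_cast hN1
  set EA := E.filter fun x => Cub X (fun K _ _ => Real.log |(NumberField.discr K : ℝ)| ≤
    X / 4 + C2) x with hEA
  set H : Q4 → Prop := fun v => ∃ k D : ℤ, k ≠ 0 ∧ dQ v = k ^ 2 * D ∧
        |(D : ℝ)| ≤ C0 * (N : ℝ) ^ (4 - η) ∧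
        ∀ p : ℕ, p.Prime → (p : ℤ) ∣ k → (p : ℝ) ≤ (N : ℝ) ^ (15 / 8 : ℝ) with hH
  set EB := E.filter fun x => ∃ v, HasForm N H x v with hEB
  have hsub : E ⊆ EA ∪ EB := by
    intro x hx
    obtain ⟨K, hnf, t, htx, hK, hirr, hh, hd⟩ := hE x hx
    obtain ⟨v, v1, v2, v3, v4, v5, v6, v7, k, hk, hv⟩ := form_of hD hI hK hirr hh
    have hdpos : (0 : ℝ) < |(NumberField.discr K : ℝ)| := by
      have := one_le_disc (K := K)
      linarith
    by_cases hbig : ∀ p : ℕ, p.Prime → (p : ℤ) ∣ k → (p : ℝ) ≤ (N : ℝ) ^ (15 / 8 : ℝ)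
    · apply Finset.mem_union_right
      refine Finset.mem_filter.2 ⟨hx, v, ?_, ?_, v1, v2, ?_, k, NumberField.discr K, hk, hv, ?_,
        hbig⟩
      · rintro rfl
        apply hirr 1
        rw [map_one]
        exact_mod_cast htx
      · rw [hN]
        exact box_of v3 v4 v5 v6
      · rw [← htx]
        have := congrArg (algebraMap K (AlgebraicClosure ℚ)) v7
        simpa using this
      · have h1 : |(NumberField.discr K : ℝ)| ≤ Real.exp ((4 - η) * X + C1) := by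
          rw [← Real.exp_log hdpos]
          exact Real.exp_le_exp.2 hd
        rw [Real.exp_add, mul_comm (4 - η) X, Real.exp_mul] at h1
        calc |(NumberField.discr K : ℝ)| ≤ Real.exp X ^ (4 - η) * Real.exp C1 := h1
          _ ≤ (N : ℝ) ^ (4 - η) * C0 := by
              apply mul_le_mul _ hC02 (by positivity) (by positivity)
              exact Real.rpow_le_rpow (by positivity) hNge (by linarith)
          _ = C0 * (N : ℝ) ^ (4 - η) := by ring
    · push Not at hbig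
      obtain ⟨p, hp, hpk, hpN⟩ := hbig
      apply Finset.mem_union_left
      refine Finset.mem_filter.2 ⟨hx, K, hnf, t, htx, hK, hirr, hh, ?_⟩
      have h1 := dsc_le (by positivity) v3 v4 v5 v6
      have h3 : ((dsc v.1 v.2.1 v.2.2.1 v.2.2.2 : ℤ) : ℝ) =
          (k : ℝ) ^ 2 * (NumberField.discr K : ℝ) := by
        exact_mod_cast congrArg (Int.cast : ℤ → ℝ) hv
      rw [h3, abs_mul, abs_of_nonneg (by positivity : (0 : ℝ) ≤ (k : ℝ) ^ 2)] at h1
      have h4 : (p : ℝ) ≤ |(k : ℝ)| := by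
        have : (p : ℤ) ≤ |k| := Int.le_of_dvd (abs_pos.2 hk) ((dvd_abs _ _).2 hpk)
        exact_mod_cast this
      have h5 : ((N : ℝ) ^ (15 / 8 : ℝ)) ^ 2 ≤ (k : ℝ) ^ 2 := by
        rw [← sq_abs (k : ℝ)]
        have := hpN.le.trans h4
        gcongr
      have h6 : Real.exp (15 / 4 * X) ≤ (k : ℝ) ^ 2 := by
        refine le_trans ?_ h5
        have h7 : Real.exp X ^ (15 / 8 : ℝ) ≤ (N : ℝ) ^ (15 / 8 : ℝ) :=
          Real.rpow_le_rpow (by positivity) hNge (by norm_num)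
        calc Real.exp (15 / 4 * X) = (Real.exp X ^ (15 / 8 : ℝ)) ^ 2 := by
              rw [← Real.exp_mul, ← Real.exp_nat_mul]
              congr 1
              push_cast
              ring
          _ ≤ _ := by gcongr
      have h8 : Real.exp (15 / 4 * X) * |(NumberField.discr K : ℝ)| ≤
          54 * (32 * Real.exp X) ^ 4 := (mul_le_mul_of_nonneg_right h6 hdpos.le).trans h1
      have h9 := Real.log_le_log (by positivity) h8
      have h10 : (54 : ℝ) * (32 * Real.exp X) ^ 4 = (54 * 32 ^ 4) * Real.exp (4 * X) := by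
        rw [mul_pow, ← Real.exp_nat_mul]
        push_cast
        ring
      rw [h10, Real.log_mul (by positivity) hdpos.ne', Real.log_exp,
        Real.log_mul (by norm_num) (by positivity), Real.log_exp, ← hC2] at h9
      linarith
  have hA := htiny X (X / 4 + C2) EA hX (by positivity) fun x hx => (Finset.mem_filter.1 hx).2
  have hBex : ∀ x : AlgebraicClosure ℚ, ∃ v : Q4, x ∈ EB → HasForm N H x v := by
    intro x
    by_cases hx : x ∈ EB
    · obtain ⟨v, hv⟩ := (Finset.mem_filter.1 hx).2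
      exact ⟨v, fun _ => hv⟩
    · exact ⟨(0, 0, 0, 0), fun h => absurd h hx⟩
  choose Φ hΦ using hBex
  have hB1 := fib_card EB Φ fun x hx =>
    ⟨(hΦ x hx).1, (hΦ x hx).2.2.1, (hΦ x hx).2.2.2.2.1⟩
  have hB2 := htail N (EB.image Φ) hN1 (by
    intro v hv
    obtain ⟨x, hx, rfl⟩ := Finset.mem_image.1 hv
    obtain ⟨-, k1, k2, k3, -, k4⟩ := hΦ x hx
    exact ⟨k1, k2, k3, k4⟩)
  have hB3 : (EB.card : ℝ) ≤ 3 * ((EB.image Φ).card : ℝ) := by exact_mod_cast hB1
  have hB4 : (N : ℝ) ^ (4 - η / 200) ≤ 32 ^ (4 - η / 200) * Real.exp ((4 - η / 200) * X) := by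
    calc (N : ℝ) ^ (4 - η / 200) ≤ (32 * Real.exp X) ^ (4 - η / 200) :=
          Real.rpow_le_rpow hNp.le hNle (by linarith)
      _ = 32 ^ (4 - η / 200) * Real.exp ((4 - η / 200) * X) := by
          rw [Real.mul_rpow (by norm_num) (by positivity), ← Real.exp_mul, mul_comm X]
  have hA2 : M2 * (X / 4 + C2 + 1) * Real.exp (2 * X + 1 / 8 * X + 5 / 4 * (X / 4 + C2)) ≤
      M2 * (C2 + 2) * Real.exp (5 / 4 * C2) * Real.exp ((4 - η / 200) * X) := by
    have e1 : X / 4 + C2 + 1 ≤ (C2 + 2) * Real.exp X := by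
      have := Real.add_one_le_exp X
      nlinarith
    have e2 : Real.exp X * Real.exp (2 * X + 1 / 8 * X + 5 / 4 * (X / 4 + C2)) ≤
        Real.exp (5 / 4 * C2) * Real.exp ((4 - η / 200) * X) := by
      rw [← Real.exp_add, ← Real.exp_add]
      apply Real.exp_le_exp.2
      nlinarith
    calc M2 * (X / 4 + C2 + 1) * Real.exp (2 * X + 1 / 8 * X + 5 / 4 * (X / 4 + C2))
        ≤ M2 * ((C2 + 2) * Real.exp X) *
            Real.exp (2 * X + 1 / 8 * X + 5 / 4 * (X / 4 + C2)) := by gcongr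
      _ = M2 * (C2 + 2) * (Real.exp X *
            Real.exp (2 * X + 1 / 8 * X + 5 / 4 * (X / 4 + C2))) := by ring
      _ ≤ M2 * (C2 + 2) * (Real.exp (5 / 4 * C2) * Real.exp ((4 - η / 200) * X)) := by gcongr
      _ = _ := by ring
  have hcard : (E.card : ℝ) ≤ EA.card + EB.card := by
    exact_mod_cast (Finset.card_le_card hsub).trans (Finset.card_union_le _ _)
  have hB5 : (EB.card : ℝ) ≤ 3 * (M1 * 32 ^ (4 - η / 200)) * Real.exp ((4 - η / 200) * X) := by
    calc (EB.card : ℝ) ≤ 3 * (M1 * (N : ℝ) ^ (4 - η / 200)) := hB3.trans (by gcongr)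
      _ ≤ 3 * (M1 * (32 ^ (4 - η / 200) * Real.exp ((4 - η / 200) * X))) := by gcongr
      _ = _ := by ring
  calc (E.card : ℝ) ≤ EA.card + EB.card := hcard
    _ ≤ M2 * (C2 + 2) * Real.exp (5 / 4 * C2) * Real.exp ((4 - η / 200) * X) +
        3 * (M1 * 32 ^ (4 - η / 200)) * Real.exp ((4 - η / 200) * X) :=
        add_le_add (hA.trans hA2) hB5
    _ = _ := by ring

end Pool.Agent.K1H46.CP
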