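import Pool.Agent.K1H46.CP.Tail2
import Pool.Agent.K1H46.CP.Form

/-! Cubic numbers whose fields have small discriminant. -/

set_option autoImplicit false

namespace Pool.Agent.K1H46.CP

open NumberField IsDedekindDomain Finset Pool.Agent.H691R3 Pool.Agent.W223.AK
open Pool.Agent.W222.UABC Pool.Agent.W301.Lin

/-- the statement of `tail` -/
def S_TAIL : Prop :=
  ∀ η C0 : ℝ, 0 < η → η ≤ 1 → 1 ≤ C0 → ∃ M : ℝ, 0 < M ∧ ∀ (N : ℕ) (E : Finset Q4), 1 ≤ N →
      (∀ v ∈ E, Box N v ∧ v.1 ≠ 0 ∧ NoRoot v ∧ ∃ k D : ℤ, k ≠ 0 ∧ dQ v = k ^ 2 * D ∧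
        |(D : ℝ)| ≤ C0 * (N : ℝ) ^ (4 - η) ∧
        ∀ p : ℕ, p.Prime → (p : ℤ) ∣ k → (p : ℝ) ≤ (N : ℝ) ^ (15 / 8 : ℝ)) →
      (E.card : ℝ) ≤ M * (N : ℝ) ^ (4 - η / 200)

theorem eS_three : eS 3 = 5 / 4 := by
  unfold eS
  have : Nat.minFac 3 = 3 := by norm_num
  rw [this]
  norm_num

/-- a cubic number -/
def Cub (X : ℝ) (P : ∀ (K : IntermediateField ℚ (AlgebraicClosure ℚ)) [NumberField K], K → Prop)
    (x : AlgebraicClosure ℚ) : Prop :=
  ∃ (K : IntermediateField ℚ (AlgebraicClosure ℚ)) (_ : NumberField K) (t : K),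
    (t : AlgebraicClosure ℚ) = x ∧ Module.finrank ℚ K = 3 ∧ (∀ q : ℚ, t ≠ algebraMap ℚ K q) ∧
      3 * W222.UABC.height ![t, 1 - t, -1] ≤ X ∧ P K t

/-- the numbers of the fields of very small discriminant -/
theorem tiny {ε : ℝ} (hε : 0 < ε) : ∃ M : ℝ, 0 < M ∧ ∀ (X Z : ℝ)
    (E : Finset (AlgebraicClosure ℚ)), 0 ≤ X → 0 ≤ Z →
      (∀ x ∈ E, Cub X (fun K _ _ => Real.log |(NumberField.discr K : ℝ)| ≤ Z) x) →
      (E.card : ℝ) ≤ M * (Z + 1) * Real.exp (2 * X + ε * X + 5 / 4 * Z) := by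
  classical
  obtain ⟨C, hC, hF⟩ := schmidt (n := 3) (by norm_num)
  rw [eS_three] at hF
  obtain ⟨D, hD, hcore⟩ := pairs_core 3 (5 / 4) (by norm_num) C hC hF hε
  refine ⟨D * Real.exp (6 * Real.log 2), by positivity, ?_⟩
  intro X Z E hX hZ hE
  have hex : ∀ x : AlgebraicClosure ℚ, ∃ K : IntermediateField ℚ (AlgebraicClosure ℚ), x ∈ E →
      PD 3 X (3 * X + 9 * Real.log 2 + Z) Z (K, x) := by
    intro x
    by_cases hx : x ∈ E
    · obtain ⟨K, hnf, t, htx, hK, hirr, hh, hd⟩ := hE x hx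
      refine ⟨K, fun _ => ⟨hnf, t, htx, hK, fun h => hirr 0 (by rw [h, map_zero]),
        fun h => hirr 1 (by rw [h, map_one]), by push_cast; exact hh, ?_, ?_, ?_⟩⟩
      · have h1 := cond_le hK (x := t) (fun h => hirr 0 (by rw [h, map_zero]))
          (fun h => hirr 1 (by rw [h, map_one]))
        simp only
        rw [dd_eq]
        push_cast
        linarith
      · simp only
        rw [dd_eq]
        exact Real.log_nonneg (by exact_mod_cast one_le_disc (K := K))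
      · simp only
        rw [dd_eq]
        exact hd
    · exact ⟨⊥, fun h => absurd h hx⟩
  choose φ hφ using hex
  set E' : Finset (IntermediateField ℚ (AlgebraicClosure ℚ) × AlgebraicClosure ℚ) :=
    E.image (fun x => (φ x, x)) with hE'
  have hcard : E'.card = E.card := Finset.card_image_of_injective _ (fun x y h => by
    simp only [Prod.mk.injEq] at h
    exact h.2)
  have h1 := hcore X (3 * X + 9 * Real.log 2 + Z) Z hX hZ E' (by
    intro p hp
    obtain ⟨x, hx, rfl⟩ := Finset.mem_image.1 hp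
    exact hφ x hx)
  rw [hcard] at h1
  refine h1.trans (le_of_eq ?_)
  have : Real.exp (2 / 3 * (3 * X + 9 * Real.log 2 + Z) + ε * X + (5 / 4 - 2 / 3) * Z) =
      Real.exp (6 * Real.log 2) * Real.exp (2 * X + ε * X + 5 / 4 * Z) := by
    rw [← Real.exp_add]
    congr 1
    ring
  rw [this]
  ring

end Pool.Agent.K1H46.CP
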