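import Mathlib

/-! Statements of the pieces of project CP (MP_6e34ef_nt, points of degree three): counting binary
cubic forms `a X ^ 3 + b X ^ 2 Y + c X Y ^ 2 + d Y ^ 3` whose discriminant has a large square
factor, and cubic numbers of bounded height. -/

set_option autoImplicit false

namespace Pool.Agent.K1H46.CP

open NumberField

/-- the coefficients of a binary cubic form -/
abbrev Q4 : Type := ℤ × ℤ × ℤ × ℤ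

/-- the discriminant -/
def dsc {R : Type} [CommRing R] (a b c d : R) : R :=
  b ^ 2 * c ^ 2 - 4 * a * c ^ 3 - 4 * b ^ 3 * d - 27 * a ^ 2 * d ^ 2 + 18 * a * b * c * d

/-- the discriminant of a form -/
def dQ (v : Q4) : ℤ := dsc v.1 v.2.1 v.2.2.1 v.2.2.2

/-- the value at `(r, s)` -/
def ev (v : Q4) (r s : ℤ) : ℤ :=
  v.1 * r ^ 3 + v.2.1 * r ^ 2 * s + v.2.2.1 * r * s ^ 2 + v.2.2.2 * s ^ 3

/-- the first partial derivative at `(r, s)` -/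
def eX (v : Q4) (r s : ℤ) : ℤ := 3 * v.1 * r ^ 2 + 2 * v.2.1 * r * s + v.2.2.1 * s ^ 2

/-- the second partial derivative at `(r, s)` -/
def eY (v : Q4) (r s : ℤ) : ℤ := v.2.1 * r ^ 2 + 2 * v.2.2.1 * r * s + 3 * v.2.2.2 * s ^ 2

/-- all coefficients have absolute value at most `N` -/
def Box (N : ℕ) (v : Q4) : Prop :=
  |v.1| ≤ (N : ℤ) ∧ |v.2.1| ≤ (N : ℤ) ∧ |v.2.2.1| ≤ (N : ℤ) ∧ |v.2.2.2| ≤ (N : ℤ)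

/-- no rational zeros -/
def NoRoot (v : Q4) : Prop := ∀ r s : ℤ, Int.gcd r s = 1 → ev v r s ≠ 0

/-- `(r, s)` is a double zero modulo `p` at which the value is divisible by `p ^ 2` -/
def Dbl (p : ℕ) (v : Q4) (r s : ℤ) : Prop :=
  (p : ℤ) ^ 2 ∣ ev v r s ∧ (p : ℤ) ∣ eX v r s ∧ (p : ℤ) ∣ eY v r s

/-- the Hessian vanishes modulo `p` -/
def Tri (p : ℕ) (v : Q4) : Prop :=
  (p : ℤ) ∣ v.2.1 ^ 2 - 3 * v.1 * v.2.2.1 ∧ (p : ℤ) ∣ v.2.1 * v.2.2.1 - 9 * v.1 * v.2.2.2 ∧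
    (p : ℤ) ∣ v.2.2.1 ^ 2 - 3 * v.2.1 * v.2.2.2

/-- CP-DEG: a cubic irrationality satisfies no equation of degree two -/
def S_DEG : Prop :=
  ∀ (K : Type) [Field K] [NumberField K], Module.finrank ℚ K = 3 → ∀ t : K,
    (∀ q : ℚ, t ≠ algebraMap ℚ K q) → ∀ u v w : ℤ, (u : K) * t ^ 2 + v * t + w = 0 →
      u = 0 ∧ v = 0 ∧ w = 0

/-- CP-IND: the discriminant of the polynomial and the discriminant of the field -/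
def S_IND : Prop :=
  ∀ (K : Type) [Field K] [NumberField K], Module.finrank ℚ K = 3 → ∀ t : K,
    (∀ q : ℚ, t ≠ algebraMap ℚ K q) → ∀ a b c d : ℤ, a ≠ 0 →
      (a : K) * t ^ 3 + b * t ^ 2 + c * t + d = 0 →
        ∃ k : ℤ, k ≠ 0 ∧ dsc a b c d = k ^ 2 * NumberField.discr K

/-- CP-DBL: if `p ^ 2` divides the discriminant, then there is a short double zero -/
def S_DBL : Prop :=
  ∀ (p : ℕ) (v : Q4), p.Prime → 5 ≤ p → (p : ℤ) ^ 2 ∣ dQ v → ¬ Tri p v →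
    ∃ r s : ℤ, Int.gcd r s = 1 ∧ r ^ 2 ≤ (p : ℤ) ∧ s ^ 2 ≤ (p : ℤ) ∧ Dbl p v r s

/-- CP-FIX: the forms with a given short double zero -/
def S_FIX : Prop :=
  ∀ (N p W : ℕ) (r s : ℤ) (E : Finset Q4), 1 ≤ N → p.Prime → 5 ≤ p → Int.gcd r s = 1 →
    r ^ 2 ≤ (p : ℤ) → s ^ 2 ≤ (p : ℤ) → (W : ℤ) = max |r| |s| →
    (∀ v ∈ E, Box N v ∧ ev v r s ≠ 0 ∧ Dbl p v r s) →
    (E.card : ℝ) ≤ 8 * N * (W : ℝ) ^ 3 / (p : ℝ) ^ 2 * (2 * N / W + 1) ^ 2 *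
      (2 * N / (W * p) + 1)

/-- CP-MID: to be proved from `S_DBL` and `S_FIX` -/
def S_MID : Prop :=
  ∃ C : ℝ, 0 < C ∧ ∀ (N P P₁ : ℕ) (E : Finset Q4), 1 ≤ N → 5 ≤ P → P₁ ≤ N ^ 2 →
    (∀ v ∈ E, Box N v ∧ NoRoot v ∧ ∃ p : ℕ, p.Prime ∧ P < p ∧ p ≤ P₁ ∧ (p : ℤ) ^ 2 ∣ dQ v ∧
      ¬ Tri p v) →
    (E.card : ℝ) ≤ C * ((N : ℝ) ^ 4 / P + (N : ℝ) ^ 3 * √P₁)

/-- CP-TRI: forms whose Hessian is divisible by a large prime -/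
def S_TRI : Prop :=
  ∃ C : ℝ, 0 < C ∧ ∀ (N P : ℕ) (E : Finset Q4), 1 ≤ N → 5 ≤ P →
    (∀ v ∈ E, Box N v ∧ v.1 ≠ 0 ∧ ∃ p : ℕ, p.Prime ∧ P < p ∧ Tri p v) →
    (E.card : ℝ) ≤ C * (1 + Real.log N) * ((N : ℝ) ^ 4 / P + (N : ℝ) ^ 3)

/-- CP-CLS: the classes modulo `m ^ 2` whose discriminant is zero -/
def S_CLS : Prop :=
  ∀ m : ℕ, Squarefree m → Nat.Coprime m 6 →
    {v : ZMod (m ^ 2) × ZMod (m ^ 2) × ZMod (m ^ 2) × ZMod (m ^ 2) |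
      dsc v.1 v.2.1 v.2.2.1 v.2.2.2 = 0}.ncard ≤ 5 ^ m.primeFactors.card * m ^ 6

/-- CP-SQF: to be proved from `S_CLS` -/
def S_SQF : Prop :=
  ∃ C : ℝ, 0 < C ∧ ∀ (N Q R : ℕ) (E : Finset Q4), 1 ≤ N → 1 ≤ Q → R ^ 2 ≤ N →
    (∀ v ∈ E, Box N v ∧ ∃ m : ℕ, Squarefree m ∧ m.Coprime 6 ∧ Q ≤ m ∧ m ≤ R ∧
      (m : ℤ) ^ 2 ∣ dQ v) →
    (E.card : ℝ) ≤ C * (N : ℝ) ^ 4 / √Q

/-- CP-POW: forms whose discriminant is divisible by a sixteenth power -/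
def S_POW : Prop :=
  ∃ C : ℝ, 0 < C ∧ ∀ (N Q R : ℕ) (E : Finset Q4), 1 ≤ N → 1 ≤ Q → R ^ 16 ≤ N →
    (∀ v ∈ E, Box N v ∧ v.1 ≠ 0 ∧ ∃ t : ℕ, Q ≤ t ∧ t ≤ R ∧ (t : ℤ) ^ 16 ∣ dQ v) →
    (E.card : ℝ) ≤ C * (N : ℝ) ^ 4 / √Q

/-- CP-SMO: divisors of smooth numbers -/
def S_SMO : Prop :=
  ∀ k P Q : ℕ, k ≠ 0 → 1 ≤ P → 1 ≤ Q → (∀ p : ℕ, p.Prime → p ∣ k → p ≤ P) →
    (6 * Q) ^ 16 ≤ k →
    (∃ m : ℕ, Squarefree m ∧ m.Coprime 6 ∧ Q ≤ m ∧ m ≤ Q * P ∧ m ∣ k) ∨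
      ∃ t : ℕ, Q ≤ t ∧ t ≤ Q * P ∧ t ^ 8 ∣ k

/-- CP-SML: forms with small discriminant -/
def S_SML : Prop :=
  ∃ C : ℝ, 0 < C ∧ ∀ (N : ℕ) (Z : ℝ) (E : Finset Q4), 1 ≤ N → 1 ≤ Z →
    (∀ v ∈ E, Box N v ∧ v.1 ≠ 0 ∧ |(dQ v : ℝ)| ≤ Z) →
    (E.card : ℝ) ≤ C * ((1 + Real.log N) * ((N : ℝ) ^ 2 * √Z) + (N : ℝ) ^ 3)

/-- CP-EIS: a root of a polynomial which is irreducible by Eisenstein's criterion at two -/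
def S_EIS : Prop :=
  ∀ a b c d : ℤ, a % 2 = 1 → b % 2 = 0 → c % 2 = 0 → d % 4 = 2 →
    ∃ (K : IntermediateField ℚ (AlgebraicClosure ℚ)) (_ : NumberField K) (x : K),
      Module.finrank ℚ K = 3 ∧ (∀ q : ℚ, x ≠ algebraMap ℚ K q) ∧
        (a : K) * x ^ 3 + b * x ^ 2 + c * x + d = 0

/-- `log H(x_0, x_1, x_2)`, the same text as `Pool.Agent.W222.UABC.height` -/
noncomputable def height {K : Type} [Field K] [NumberField K] (x : Fin 3 → K) : ℝ :=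
  (∑ w : InfinitePlace K, (w.mult : ℝ) * Real.log (max (w (x 0)) (max (w (x 1)) (w (x 2)))) +
    ∑ᶠ v : IsDedekindDomain.HeightOneSpectrum (𝓞 K), Real.log
      (max (FinitePlace.mk v (x 0)) (max (FinitePlace.mk v (x 1)) (FinitePlace.mk v (x 2))))) /
    (Module.finrank ℚ K : ℝ)

/-- CP-HGT: the height of a cubic number in terms of the coefficients -/
def S_HGT : Prop :=
  ∃ C : ℝ, ∀ (K : Type) [Field K] [NumberField K] (a b c d : ℤ) (x : K) (T : ℝ),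
    Module.finrank ℚ K = 3 → (∀ q : ℚ, x ≠ algebraMap ℚ K q) → 1 ≤ T →
    (a : K) * x ^ 3 + b * x ^ 2 + c * x + d = 0 → Int.gcd a (b * c) = 1 →
    T / 8 ≤ |(a : ℝ)| → |(a : ℝ)| ≤ T → |(b : ℝ)| ≤ T → |(c : ℝ)| ≤ T → |(d : ℝ)| ≤ T →
      height ![x, 1 - x, -1] ≤ Real.log T / 3 + C

/-- CP-CNT: many coefficients as in `S_EIS` and `S_HGT` -/
def S_CNT : Prop :=
  ∃ c : ℝ, 0 < c ∧ ∃ T₀ : ℕ, ∀ T : ℕ, T₀ ≤ T → ∃ E : Finset Q4, c * (T : ℝ) ^ 4 ≤ (E.card : ℝ) ∧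
    ∀ v ∈ E, Box T v ∧ (T : ℝ) / 8 ≤ (v.1 : ℝ) ∧ 0 < v.1 ∧ v.1 % 2 = 1 ∧ v.2.1 % 2 = 0 ∧
      v.2.2.1 % 2 = 0 ∧ v.2.2.2 % 4 = 2 ∧ Int.gcd v.1 (v.2.1 * v.2.2.1) = 1

end Pool.Agent.K1H46.CP
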