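import Pool.Agent.K1H46.CP.Stm

/-! Binary cubic forms whose discriminant has a large square factor. -/

set_option autoImplicit false

namespace Pool.Agent.K1H46.CP

open Finset

/-- the forms which are counted -/
def Bad (N : ℕ) (Z : ℝ) (Q P₁ : ℕ) (v : Q4) : Prop :=
  Box N v ∧ v.1 ≠ 0 ∧ NoRoot v ∧ ∃ k : ℤ, k ≠ 0 ∧ k ^ 2 ∣ dQ v ∧
    (|(dQ v : ℝ)| ≤ Z ∨ (6 * Q) ^ 16 ≤ k.natAbs) ∧ ∀ p : ℕ, p.Prime → (p : ℤ) ∣ k → p ≤ P₁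

theorem bad_card (hMID : S_MID) (hTRI : S_TRI) (hSQF : S_SQF) (hPOW : S_POW) (hSMO : S_SMO)
    (hSML : S_SML) : ∃ C : ℝ, 0 < C ∧ ∀ (N P P₁ Q : ℕ) (Z : ℝ) (E : Finset Q4), 1 ≤ N → 1 ≤ Z →
      5 ≤ P → P₁ ≤ N ^ 2 → 1 ≤ Q → (Q * P) ^ 16 ≤ N → (∀ v ∈ E, Bad N Z Q P₁ v) →
      (E.card : ℝ) ≤ C * ((1 + Real.log N) * ((N : ℝ) ^ 2 * √Z + (N : ℝ) ^ 3 + (N : ℝ) ^ 4 / P) +
        (N : ℝ) ^ 3 * √P₁ + (N : ℝ) ^ 4 / √Q) := by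
  classical
  obtain ⟨C1, hC1, h1⟩ := hMID
  obtain ⟨C2, hC2, h2⟩ := hTRI
  obtain ⟨C3, hC3, h3⟩ := hSQF
  obtain ⟨C4, hC4, h4⟩ := hPOW
  obtain ⟨C5, hC5, h5⟩ := hSML
  refine ⟨C1 + C2 + C3 + C4 + C5, by positivity, ?_⟩
  intro N P P₁ Q Z E hN hZ hP hP₁ hQ hQP hE
  set E1 := E.filter fun v => ∃ p : ℕ, p.Prime ∧ P < p ∧ p ≤ P₁ ∧ (p : ℤ) ^ 2 ∣ dQ v ∧ ¬ Tri p v
    with hE1
  set E2 := E.filter fun v => ∃ p : ℕ, p.Prime ∧ P < p ∧ Tri p v with hE2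
  set E3 := E.filter fun v => ∃ m : ℕ, Squarefree m ∧ m.Coprime 6 ∧ Q ≤ m ∧ m ≤ Q * P ∧
      (m : ℤ) ^ 2 ∣ dQ v with hE3
  set E4 := E.filter fun v => ∃ t : ℕ, Q ≤ t ∧ t ≤ Q * P ∧ (t : ℤ) ^ 16 ∣ dQ v with hE4
  set E5 := E.filter fun v => |(dQ v : ℝ)| ≤ Z with hE5
  have hsub : E ⊆ E1 ∪ (E2 ∪ (E3 ∪ (E4 ∪ E5))) := by
    intro v hv
    obtain ⟨hb, ha, hnr, k, hk, hkd, hor, hpr⟩ := hE v hv
    simp only [Finset.mem_union]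
    rcases hor with hor | hor
    · exact Or.inr (Or.inr (Or.inr (Or.inr (Finset.mem_filter.2 ⟨hv, hor⟩))))
    by_cases hbig : ∃ p : ℕ, p.Prime ∧ P < p ∧ (p : ℤ) ∣ k
    · obtain ⟨p, hp, hPp, hpk⟩ := hbig
      by_cases ht : Tri p v
      · exact Or.inr (Or.inl (Finset.mem_filter.2 ⟨hv, p, hp, hPp, ht⟩))
      · exact Or.inl (Finset.mem_filter.2 ⟨hv, p, hp, hPp, hpr p hp hpk,
          (pow_dvd_pow_of_dvd hpk 2).trans hkd, ht⟩)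
    · push Not at hbig
      have hsm : ∀ p : ℕ, p.Prime → p ∣ k.natAbs → p ≤ P := by
        intro p hp hpk
        by_contra hlt
        exact hbig p hp (not_le.1 hlt) (Int.natCast_dvd.2 hpk)
      rcases hSMO k.natAbs P Q (Int.natAbs_ne_zero.2 hk) (by omega) hQ hsm hor with
        ⟨m, m1, m2, m3, m4, m5⟩ | ⟨t, t1, t2, t3⟩
      · refine Or.inr (Or.inr (Or.inl (Finset.mem_filter.2 ⟨hv, m, m1, m2, m3, m4, ?_⟩)))
        exact (pow_dvd_pow_of_dvd (Int.natCast_dvd.2 m5) 2).trans hkd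
      · refine Or.inr (Or.inr (Or.inr (Or.inl (Finset.mem_filter.2 ⟨hv, t, t1, t2, ?_⟩))))
        have h6 : ((t ^ 8 : ℕ) : ℤ) ∣ k := Int.natCast_dvd.2 t3
        have h7 := (pow_dvd_pow_of_dvd h6 2).trans hkd
        have h8 : (((t ^ 8 : ℕ) : ℤ)) ^ 2 = (t : ℤ) ^ 16 := by
          push_cast
          ring
        rwa [h8] at h7
  have hQP2 : (Q * P) ^ 2 ≤ N := by
    refine le_trans ?_ hQP
    have : 1 ≤ Q * P := Nat.mul_pos hQ (by omega)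
    exact Nat.pow_le_pow_right this (by norm_num)
  have k1 := h1 N P P₁ E1 hN hP hP₁ fun v hv => by
    obtain ⟨hvE, hv2⟩ := Finset.mem_filter.1 hv
    exact ⟨(hE v hvE).1, (hE v hvE).2.2.1, hv2⟩
  have k2 := h2 N P E2 hN hP fun v hv => by
    obtain ⟨hvE, hv2⟩ := Finset.mem_filter.1 hv
    exact ⟨(hE v hvE).1, (hE v hvE).2.1, hv2⟩
  have k3 := h3 N Q (Q * P) E3 hN hQ hQP2 fun v hv => by
    obtain ⟨hvE, hv2⟩ := Finset.mem_filter.1 hv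
    exact ⟨(hE v hvE).1, hv2⟩
  have k4 := h4 N Q (Q * P) E4 hN hQ hQP fun v hv => by
    obtain ⟨hvE, hv2⟩ := Finset.mem_filter.1 hv
    exact ⟨(hE v hvE).1, (hE v hvE).2.1, hv2⟩
  have k5 := h5 N Z E5 hN hZ fun v hv => by
    obtain ⟨hvE, hv2⟩ := Finset.mem_filter.1 hv
    exact ⟨(hE v hvE).1, (hE v hvE).2.1, hv2⟩
  have hcard : (E.card : ℝ) ≤ E1.card + (E2.card + (E3.card + (E4.card + E5.card))) := by
    have c1 := (Finset.card_le_card hsub).trans (Finset.card_union_le _ _)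
    have c2 := Finset.card_union_le E2 (E3 ∪ (E4 ∪ E5))
    have c3 := Finset.card_union_le E3 (E4 ∪ E5)
    have c4 := Finset.card_union_le E4 E5
    have : E.card ≤ E1.card + (E2.card + (E3.card + (E4.card + E5.card))) := by omega
    exact_mod_cast this
  have hNr : (1 : ℝ) ≤ N := by exact_mod_cast hN
  have hl : 0 ≤ Real.log N := Real.log_nonneg hNr
  obtain ⟨L, hL⟩ : ∃ L : ℝ, L = 1 + Real.log N := ⟨_, rfl⟩
  have hL1 : 1 ≤ L := by rw [hL]; linarith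
  obtain ⟨a, ha⟩ : ∃ a : ℝ, a = (N : ℝ) ^ 2 * √Z := ⟨_, rfl⟩
  obtain ⟨b, hb⟩ : ∃ b : ℝ, b = (N : ℝ) ^ 3 := ⟨_, rfl⟩
  obtain ⟨c, hc⟩ : ∃ c : ℝ, c = (N : ℝ) ^ 4 / P := ⟨_, rfl⟩
  obtain ⟨d, hd⟩ : ∃ d : ℝ, d = (N : ℝ) ^ 3 * √P₁ := ⟨_, rfl⟩
  obtain ⟨e, he⟩ : ∃ e : ℝ, e = (N : ℝ) ^ 4 / √Q := ⟨_, rfl⟩
  have ha0 : 0 ≤ a := by rw [ha]; positivity
  have hb0 : 0 ≤ b := by rw [hb]; positivity
  have hc0 : 0 ≤ c := by rw [hc]; positivity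
  have hd0 : 0 ≤ d := by rw [hd]; positivity
  have he0 : 0 ≤ e := by rw [he]; positivity
  rw [← hc, ← hd] at k1
  rw [← hL, ← hc, ← hb] at k2
  rw [mul_div_assoc, ← he] at k3 k4
  rw [← hL, ← ha, ← hb] at k5
  rw [← hL, ← ha, ← hd, ← hb, ← hc, ← he]
  obtain ⟨S, hS⟩ : ∃ S : ℝ, S = L * (a + b + c) + d + e := ⟨_, rfl⟩
  have hLa : a ≤ L * a := le_mul_of_one_le_left ha0 hL1
  have hLb : b ≤ L * b := le_mul_of_one_le_left hb0 hL1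
  have hLc : c ≤ L * c := le_mul_of_one_le_left hc0 hL1
  have s1 : c + d ≤ S := by rw [hS]; nlinarith
  have s2 : L * (c + b) ≤ S := by rw [hS]; nlinarith
  have s3 : e ≤ S := by rw [hS]; nlinarith
  have s5 : L * a + b ≤ S := by rw [hS]; nlinarith
  rw [← hS]
  calc (E.card : ℝ) ≤ C1 * (c + d) + (C2 * L * (c + b) + (C3 * e + (C4 * e + C5 * (L * a + b)))) := by
        linarith
    _ = C1 * (c + d) + (C2 * (L * (c + b)) + (C3 * e + (C4 * e + C5 * (L * a + b)))) := by ring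
    _ ≤ C1 * S + (C2 * S + (C3 * S + (C4 * S + C5 * S))) := by gcongr
    _ = (C1 + C2 + C3 + C4 + C5) * S := by ring

end Pool.Agent.K1H46.CP
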