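import Pool.Agent.K1H46.CP.Tail

/-! Binary cubic forms whose discriminant has a large square factor: exponents. -/

set_option autoImplicit false

namespace Pool.Agent.K1H46.CP

open Finset

theorem box_card (N : ℕ) (E : Finset Q4) (hE : ∀ v ∈ E, Box N v) :
    (E.card : ℝ) ≤ (2 * N + 1) ^ 4 := by
  classical
  have hsub : E ⊆ Finset.Icc (-(N : ℤ)) N ×ˢ (Finset.Icc (-(N : ℤ)) N ×ˢ
      (Finset.Icc (-(N : ℤ)) N ×ˢ Finset.Icc (-(N : ℤ)) N)) := by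
    intro v hv
    obtain ⟨h1, h2, h3, h4⟩ := hE v hv
    simp only [Finset.mem_product, Finset.mem_Icc]
    exact ⟨abs_le.1 h1, abs_le.1 h2, abs_le.1 h3, abs_le.1 h4⟩
  have h := Finset.card_le_card hsub
  rw [Finset.card_product, Finset.card_product, Finset.card_product, Int.card_Icc] at h
  have h2 : ((N : ℤ) + 1 - -(N : ℤ)).toNat = 2 * N + 1 := by omega
  rw [h2] at h
  have h3 : (E.card : ℝ) ≤ ((2 * N + 1) * ((2 * N + 1) * ((2 * N + 1) * (2 * N + 1))) : ℕ) := by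
    exact_mod_cast h
  refine h3.trans (le_of_eq ?_)
  push_cast
  ring

theorem half_floor {x : ℝ} (hx : 1 ≤ x) : x / 2 ≤ (⌊x⌋₊ : ℝ) := by
  have h1 := Nat.lt_floor_add_one x
  have h2 : (1 : ℝ) ≤ (⌊x⌋₊ : ℝ) := by
    exact_mod_cast Nat.le_floor (by push_cast; exact hx)
  linarith

theorem tail {C : ℝ} (hC : 0 < C) (hbad : ∀ (N P P₁ Q : ℕ) (Z : ℝ) (E : Finset Q4), 1 ≤ N →
    1 ≤ Z → 5 ≤ P → P₁ ≤ N ^ 2 → 1 ≤ Q → (Q * P) ^ 16 ≤ N → (∀ v ∈ E, Bad N Z Q P₁ v) →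
      (E.card : ℝ) ≤ C * ((1 + Real.log N) * ((N : ℝ) ^ 2 * √Z + (N : ℝ) ^ 3 + (N : ℝ) ^ 4 / P) +
        (N : ℝ) ^ 3 * √P₁ + (N : ℝ) ^ 4 / √Q)) {η C0 : ℝ} (hη : 0 < η) (hη1 : η ≤ 1)
    (hC0 : 1 ≤ C0) : ∃ M : ℝ, 0 < M ∧ ∀ (N : ℕ) (E : Finset Q4), 1 ≤ N →
      (∀ v ∈ E, Box N v ∧ v.1 ≠ 0 ∧ NoRoot v ∧ ∃ k D : ℤ, k ≠ 0 ∧ dQ v = k ^ 2 * D ∧
        |(D : ℝ)| ≤ C0 * (N : ℝ) ^ (4 - η) ∧
        ∀ p : ℕ, p.Prime → (p : ℤ) ∣ k → (p : ℝ) ≤ (N : ℝ) ^ (15 / 8 : ℝ)) →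
      (E.card : ℝ) ≤ M * (N : ℝ) ^ (4 - η / 200) := by
  obtain ⟨N0, hN0⟩ : ∃ N0 : ℕ, N0 = ⌈((6 : ℝ) ^ 32 * C0) ^ (10 / η)⌉₊ + 5 ^ 40 := ⟨_, rfl⟩
  obtain ⟨M1, hM1⟩ : ∃ M1 : ℝ, M1 = C * ((1 + 200 / η) * 4 + 3) := ⟨_, rfl⟩
  have hM10 : 0 < M1 := by rw [hM1]; positivity
  refine ⟨81 * (N0 : ℝ) ^ 4 + M1, by positivity, ?_⟩
  intro N E hN hE
  have hNr : (1 : ℝ) ≤ N := by exact_mod_cast hN
  have hNp : (0 : ℝ) < N := by linarith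
  have hpow1 : (1 : ℝ) ≤ (N : ℝ) ^ (4 - η / 200) := Real.one_le_rpow hNr (by linarith)
  rcases lt_or_ge N N0 with hlt | hge
  · have h1 := box_card N E fun v hv => (hE v hv).1
    have h2 : (N : ℝ) ≤ N0 := by exact_mod_cast hlt.le
    have h3 : ((2 : ℝ) * N + 1) ^ 4 ≤ (3 * (N0 : ℝ)) ^ 4 := by
      gcongr
      linarith
    calc (E.card : ℝ) ≤ (3 * (N0 : ℝ)) ^ 4 := h1.trans h3
      _ = 81 * (N0 : ℝ) ^ 4 * 1 := by ring
      _ ≤ (81 * (N0 : ℝ) ^ 4 + M1) * (N : ℝ) ^ (4 - η / 200) := by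
          apply mul_le_mul _ hpow1 (by norm_num) (by positivity)
          linarith
  have hNN0 : (N0 : ℝ) ≤ N := by exact_mod_cast hge
  have hbig1 : (6 : ℝ) ^ 32 * C0 ≤ (N : ℝ) ^ (η / 10) := by
    have h1 : ((6 : ℝ) ^ 32 * C0) ^ (10 / η) ≤ N := by
      refine (Nat.le_ceil _).trans ?_
      refine le_trans ?_ hNN0
      rw [hN0]
      push_cast
      have : (0 : ℝ) ≤ 5 ^ 40 := by norm_num
      linarith
    have h2 := Real.rpow_le_rpow (by positivity) h1 (by positivity : 0 ≤ η / 10)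
    rwa [← Real.rpow_mul (by positivity), show 10 / η * (η / 10) = 1 by field_simp,
      Real.rpow_one] at h2
  have hbig2 : (5 : ℝ) ≤ (N : ℝ) ^ (1 / 40 : ℝ) := by
    have h1 : (5 : ℝ) ^ 40 ≤ N := by
      refine le_trans ?_ hNN0
      rw [hN0]
      push_cast
      have : (0 : ℝ) ≤ (⌈((6 : ℝ) ^ 32 * C0) ^ (10 / η)⌉₊ : ℝ) := Nat.cast_nonneg _
      linarith
    have h2 := Real.rpow_le_rpow (by positivity) h1 (by norm_num : (0 : ℝ) ≤ 1 / 40)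
    rw [← Real.rpow_natCast, ← Real.rpow_mul (by norm_num)] at h2
    norm_num at h2 ⊢
    exact h2
  obtain ⟨Q, hQ⟩ : ∃ Q : ℕ, Q = ⌊(N : ℝ) ^ (η / 80)⌋₊ := ⟨_, rfl⟩
  obtain ⟨P, hP⟩ : ∃ P : ℕ, P = ⌊(N : ℝ) ^ (1 / 40 : ℝ)⌋₊ := ⟨_, rfl⟩
  obtain ⟨P₁, hP₁⟩ : ∃ P₁ : ℕ, P₁ = ⌊(N : ℝ) ^ (15 / 8 : ℝ)⌋₊ := ⟨_, rfl⟩
  have hQ1 : (1 : ℝ) ≤ (N : ℝ) ^ (η / 80) := Real.one_le_rpow hNr (by positivity)
  have hQle : (Q : ℝ) ≤ (N : ℝ) ^ (η / 80) := by rw [hQ]; exact Nat.floor_le (by positivity)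
  have hPle : (P : ℝ) ≤ (N : ℝ) ^ (1 / 40 : ℝ) := by rw [hP]; exact Nat.floor_le (by positivity)
  have hP₁le : (P₁ : ℝ) ≤ (N : ℝ) ^ (15 / 8 : ℝ) := by
    rw [hP₁]; exact Nat.floor_le (by positivity)
  have hQge : (N : ℝ) ^ (η / 80) / 2 ≤ Q := by rw [hQ]; exact half_floor hQ1
  have hPge : (N : ℝ) ^ (1 / 40 : ℝ) / 2 ≤ P := by rw [hP]; exact half_floor (by linarith)
  have cP : 5 ≤ P := by
    rw [hP]
    exact Nat.le_floor (by push_cast; exact hbig2)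
  have cQ : 1 ≤ Q := by
    rw [hQ]
    exact Nat.le_floor (by push_cast; exact hQ1)
  have cP₁ : P₁ ≤ N ^ 2 := by
    have h1 : (N : ℝ) ^ (15 / 8 : ℝ) ≤ (N : ℝ) ^ (2 : ℝ) :=
      Real.rpow_le_rpow_of_exponent_le hNr (by norm_num)
    have h2 : (P₁ : ℝ) ≤ (N : ℝ) ^ 2 := by
      refine (hP₁le.trans h1).trans (le_of_eq ?_)
      exact_mod_cast Real.rpow_natCast (N : ℝ) 2
    exact_mod_cast h2
  have cQP : (Q * P) ^ 16 ≤ N := by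
    have h1 : (Q : ℝ) * P ≤ (N : ℝ) ^ (3 / 80 : ℝ) := by
      calc (Q : ℝ) * P ≤ (N : ℝ) ^ (η / 80) * (N : ℝ) ^ (1 / 40 : ℝ) := by gcongr
        _ = (N : ℝ) ^ (η / 80 + 1 / 40) := (Real.rpow_add hNp _ _).symm
        _ ≤ (N : ℝ) ^ (3 / 80 : ℝ) := Real.rpow_le_rpow_of_exponent_le hNr (by linarith)
    have h2 : ((Q : ℝ) * P) ^ 16 ≤ N := by
      calc ((Q : ℝ) * P) ^ 16 ≤ ((N : ℝ) ^ (3 / 80 : ℝ)) ^ 16 := by gcongr
        _ = (N : ℝ) ^ (3 / 80 * 16 : ℝ) := by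
            rw [← Real.rpow_natCast, ← Real.rpow_mul hNp.le]
            norm_num
        _ ≤ (N : ℝ) ^ (1 : ℝ) := Real.rpow_le_rpow_of_exponent_le hNr (by norm_num)
        _ = N := Real.rpow_one _
    exact_mod_cast h2
  have cZ : (1 : ℝ) ≤ (N : ℝ) ^ (4 - η / 2) := Real.one_le_rpow hNr (by linarith)
  have key := hbad N P P₁ Q ((N : ℝ) ^ (4 - η / 2)) E hN cZ cP cP₁ cQ cQP (by
    intro v hv
    obtain ⟨h1, h2, h3, k, D, h4, h5, h6, h7⟩ := hE v hv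
    refine ⟨h1, h2, h3, k, h4, ⟨D, h5⟩, ?_, ?_⟩
    · rcases le_or_gt |(dQ v : ℝ)| ((N : ℝ) ^ (4 - η / 2)) with h8 | h8
      · exact Or.inl h8
      · right
        have h9 : |(dQ v : ℝ)| = (k : ℝ) ^ 2 * |(D : ℝ)| := by
          rw [h5]
          push_cast
          rw [abs_mul, abs_of_nonneg (by positivity : (0 : ℝ) ≤ (k : ℝ) ^ 2)]
        have h10 : (N : ℝ) ^ (4 - η / 2) < (k : ℝ) ^ 2 * (C0 * (N : ℝ) ^ (4 - η)) := by
          rw [h9] at h8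
          refine h8.trans_le ?_
          gcongr
        have h11 : (N : ℝ) ^ (4 - η / 2) = (N : ℝ) ^ (η / 2) * (N : ℝ) ^ (4 - η) := by
          rw [← Real.rpow_add hNp]
          congr 1
          ring
        have h12 : (N : ℝ) ^ (η / 2) < (k : ℝ) ^ 2 * C0 := by
          rw [h11, ← mul_assoc] at h10
          exact lt_of_mul_lt_mul_right h10 (by positivity)
        have h13 : (((6 : ℝ) * Q) ^ 16) ^ 2 ≤ (k : ℝ) ^ 2 := by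
          have e1 : (((6 : ℝ) * Q) ^ 16) ^ 2 ≤ 6 ^ 32 * (N : ℝ) ^ (2 * η / 5) := by
            have : ((Q : ℝ)) ^ 32 ≤ (N : ℝ) ^ (2 * η / 5) := by
              calc ((Q : ℝ)) ^ 32 ≤ ((N : ℝ) ^ (η / 80)) ^ 32 := by gcongr
                _ = (N : ℝ) ^ (2 * η / 5) := by
                  rw [← Real.rpow_natCast, ← Real.rpow_mul hNp.le]
                  congr 1
                  push_cast
                  ring
            calc (((6 : ℝ) * Q) ^ 16) ^ 2 = 6 ^ 32 * (Q : ℝ) ^ 32 := by ring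
              _ ≤ 6 ^ 32 * (N : ℝ) ^ (2 * η / 5) := by gcongr
          have e2 : 6 ^ 32 * (N : ℝ) ^ (2 * η / 5) * C0 ≤ (N : ℝ) ^ (η / 2) := by
            calc 6 ^ 32 * (N : ℝ) ^ (2 * η / 5) * C0 = 6 ^ 32 * C0 * (N : ℝ) ^ (2 * η / 5) := by
                  ring
              _ ≤ (N : ℝ) ^ (η / 10) * (N : ℝ) ^ (2 * η / 5) := by gcongr
              _ = (N : ℝ) ^ (η / 2) := by
                  rw [← Real.rpow_add hNp]
                  congr 1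
                  ring
          have e3 : 6 ^ 32 * (N : ℝ) ^ (2 * η / 5) * C0 ≤ (k : ℝ) ^ 2 * C0 := e2.trans h12.le
          have e4 := le_of_mul_le_mul_right e3 (by linarith)
          exact e1.trans e4
        have h14 : ((6 : ℝ) * Q) ^ 16 ≤ |(k : ℝ)| := by
          rw [← sq_abs (k : ℝ)] at h13
          exact (pow_le_pow_iff_left₀ (by positivity) (abs_nonneg _) (by norm_num)).1 h13
        have h15 : (((6 * Q) ^ 16 : ℕ) : ℝ) ≤ (k.natAbs : ℝ) := by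
          rw [Nat.cast_natAbs]
          push_cast
          exact h14
        exact_mod_cast h15
    · intro p hp hpk
      rw [hP₁]
      exact Nat.le_floor (h7 p hp hpk))
  obtain ⟨a, ha⟩ : ∃ a : ℝ, a = η / 200 := ⟨_, rfl⟩
  have ha0 : 0 < a := by rw [ha]; positivity
  have hN1a : (1 : ℝ) ≤ (N : ℝ) ^ a := Real.one_le_rpow hNr ha0.le
  have b0 : 1 + Real.log N ≤ (1 + 200 / η) * (N : ℝ) ^ a := by
    have h1 := Real.log_le_rpow_div hNp.le ha0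
    have h2 : (N : ℝ) ^ a / a = 200 / η * (N : ℝ) ^ a := by
      rw [ha]
      field_simp
    rw [h2] at h1
    linarith
  have hmono : ∀ s t : ℝ, s ≤ t → (N : ℝ) ^ s ≤ (N : ℝ) ^ t := fun s t h =>
    Real.rpow_le_rpow_of_exponent_le hNr h
  have n2 : (N : ℝ) ^ 2 = (N : ℝ) ^ (2 : ℝ) := by exact_mod_cast (Real.rpow_natCast (N : ℝ) 2).symm
  have n3 : (N : ℝ) ^ 3 = (N : ℝ) ^ (3 : ℝ) := by exact_mod_cast (Real.rpow_natCast (N : ℝ) 3).symm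
  have n4 : (N : ℝ) ^ 4 = (N : ℝ) ^ (4 : ℝ) := by exact_mod_cast (Real.rpow_natCast (N : ℝ) 4).symm
  have b1 : (N : ℝ) ^ 2 * √((N : ℝ) ^ (4 - η / 2)) ≤ (N : ℝ) ^ (4 - η / 40) := by
    rw [n2, Real.sqrt_eq_rpow, ← Real.rpow_mul hNp.le, ← Real.rpow_add hNp]
    apply hmono
    linarith
  have b2 : (N : ℝ) ^ 3 ≤ (N : ℝ) ^ (4 - η / 40) := by
    rw [n3]
    apply hmono
    linarith
  have b3 : (N : ℝ) ^ 4 / P ≤ 2 * (N : ℝ) ^ (4 - η / 40) := by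
    have h1 : (N : ℝ) ^ 4 / P ≤ (N : ℝ) ^ 4 / ((N : ℝ) ^ (1 / 40 : ℝ) / 2) := by
      gcongr
    refine h1.trans ?_
    have h2 : (N : ℝ) ^ 4 / ((N : ℝ) ^ (1 / 40 : ℝ) / 2) = 2 * (N : ℝ) ^ (4 - 1 / 40 : ℝ) := by
      rw [Real.rpow_sub hNp, ← n4]
      field_simp
    rw [h2]
    have := hmono (4 - 1 / 40) (4 - η / 40) (by linarith)
    linarith
  have b4 : (N : ℝ) ^ 3 * √P₁ ≤ (N : ℝ) ^ (4 - a) := by
    have h1 : √(P₁ : ℝ) ≤ √((N : ℝ) ^ (15 / 8 : ℝ)) := Real.sqrt_le_sqrt hP₁le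
    calc (N : ℝ) ^ 3 * √P₁ ≤ (N : ℝ) ^ 3 * √((N : ℝ) ^ (15 / 8 : ℝ)) := by gcongr
      _ = (N : ℝ) ^ (3 + 15 / 8 * (1 / 2) : ℝ) := by
          rw [n3, Real.sqrt_eq_rpow, ← Real.rpow_mul hNp.le, ← Real.rpow_add hNp]
      _ ≤ (N : ℝ) ^ (4 - a) := by
          apply hmono
          rw [ha]
          linarith
  have b5 : (N : ℝ) ^ 4 / √Q ≤ 2 * (N : ℝ) ^ (4 - a) := by
    have h1 : √((N : ℝ) ^ (η / 80)) / 2 ≤ √(Q : ℝ) := by
      have h2 : √((N : ℝ) ^ (η / 80)) / 2 ≤ √((N : ℝ) ^ (η / 80) / 2) := by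
        rw [Real.sqrt_div (by positivity)]
        have h3 : √(2 : ℝ) ≤ 2 := by
          rw [Real.sqrt_le_left (by norm_num)]
          norm_num
        have h4 : 0 < √(2 : ℝ) := by positivity
        gcongr
      exact h2.trans (Real.sqrt_le_sqrt hQge)
    have h5 : 0 < √((N : ℝ) ^ (η / 80)) := by positivity
    calc (N : ℝ) ^ 4 / √Q ≤ (N : ℝ) ^ 4 / (√((N : ℝ) ^ (η / 80)) / 2) := by gcongr
      _ = 2 * (N : ℝ) ^ (4 - η / 80 * (1 / 2) : ℝ) := by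
          rw [Real.rpow_sub hNp, ← n4, Real.sqrt_eq_rpow, ← Real.rpow_mul hNp.le]
          field_simp
      _ ≤ 2 * (N : ℝ) ^ (4 - a) := by
          have := hmono (4 - η / 80 * (1 / 2)) (4 - a) (by rw [ha]; linarith)
          linarith
  have b6 : (N : ℝ) ^ a * (N : ℝ) ^ (4 - η / 40) ≤ (N : ℝ) ^ (4 - a) := by
    rw [← Real.rpow_add hNp]
    apply hmono
    rw [ha]
    linarith
  have b7 : (1 + Real.log N) * ((N : ℝ) ^ 2 * √((N : ℝ) ^ (4 - η / 2)) + (N : ℝ) ^ 3 +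
      (N : ℝ) ^ 4 / P) ≤ (1 + 200 / η) * 4 * (N : ℝ) ^ (4 - a) := by
    have hl : 0 ≤ Real.log N := Real.log_nonneg hNr
    calc (1 + Real.log N) * ((N : ℝ) ^ 2 * √((N : ℝ) ^ (4 - η / 2)) + (N : ℝ) ^ 3 +
          (N : ℝ) ^ 4 / P) ≤ ((1 + 200 / η) * (N : ℝ) ^ a) * (4 * (N : ℝ) ^ (4 - η / 40)) := by
          apply mul_le_mul b0 _ (by positivity) (by positivity)
          linarith
      _ = (1 + 200 / η) * 4 * ((N : ℝ) ^ a * (N : ℝ) ^ (4 - η / 40)) := by ring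
      _ ≤ _ := by gcongr
  have hfin : (E.card : ℝ) ≤ M1 * (N : ℝ) ^ (4 - a) := by
    refine key.trans ?_
    rw [hM1, mul_assoc]
    apply mul_le_mul_of_nonneg_left _ hC.le
    linarith
  refine hfin.trans ?_
  rw [ha]
  gcongr
  have : (0 : ℝ) ≤ 81 * (N0 : ℝ) ^ 4 := by positivity
  linarith

end Pool.Agent.K1H46.CP
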