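import Pool.Agent.K1H46.CP.Small3

/-! Cubic numbers: violations, upper and lower bounds for the number of points. -/

set_option autoImplicit false

namespace Pool.Agent.K1H46.CP

open NumberField IsDedekindDomain Finset Pool.Agent.H691R3 Pool.Agent.W223.AK
open Pool.Agent.W222.UABC Pool.Agent.W301.Lin

/-- `x` has degree three and height at most `B` -/
def Cub3 (B : ℝ) (x : AlgebraicClosure ℚ) : Prop :=
  ∃ (K : IntermediateField ℚ (AlgebraicClosure ℚ)) (_ : NumberField K) (t : K),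
    (t : AlgebraicClosure ℚ) = x ∧ Module.finrank ℚ K = 3 ∧ (∀ q : ℚ, t ≠ algebraMap ℚ K q) ∧
      W222.UABC.height ![t, 1 - t, -1] ≤ Real.log B

/-- `x` has degree three, height at most `B` and violates the inequality -/
def Vio (κ c B : ℝ) (x : AlgebraicClosure ℚ) : Prop :=
  ∃ (K : IntermediateField ℚ (AlgebraicClosure ℚ)) (_ : NumberField K) (t : K),
    (t : AlgebraicClosure ℚ) = x ∧ Module.finrank ℚ K = 3 ∧ (∀ q : ℚ, t ≠ algebraMap ℚ K q) ∧
      W222.UABC.height ![t, 1 - t, -1] ≤ Real.log B ∧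
      c + κ * (rootDisc K + conductor ![t, 1 - t, -1]) < W222.UABC.height ![t, 1 - t, -1]

theorem cub_up (hD : S_DEG) (hI : S_IND) {B : ℝ} (hB : 1 ≤ B) (E : Finset (AlgebraicClosure ℚ))
    (hE : ∀ x ∈ E, Cub3 B x) : (E.card : ℝ) ≤ 3 * 65 ^ 4 * B ^ 12 := by
  classical
  have hB0 : 0 < B := by linarith
  have hlB : 0 ≤ Real.log B := Real.log_nonneg hB
  obtain ⟨X, hX⟩ : ∃ X : ℝ, X = 3 * Real.log B := ⟨_, rfl⟩
  have hX0 : 0 ≤ X := by rw [hX]; positivity
  have hexp1 : 1 ≤ Real.exp X := Real.one_le_exp hX0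
  obtain ⟨N, hN⟩ : ∃ N : ℕ, N = ⌊32 * Real.exp X⌋₊ := ⟨_, rfl⟩
  have hNle : (N : ℝ) ≤ 32 * Real.exp X := by rw [hN]; exact Nat.floor_le (by positivity)
  have hex : ∀ x : AlgebraicClosure ℚ, ∃ v : Q4, x ∈ E → HasForm N (fun _ => True) x v := by
    intro x
    by_cases hx : x ∈ E
    · obtain ⟨K, hnf, t, htx, hK, hirr, hh⟩ := hE x hx
      obtain ⟨v, v1, v2, v3, v4, v5, v6, v7, k, hk, hv⟩ := form_of hD hI hK hirr
        (X := X) (by rw [hX]; linarith)
      refine ⟨v, fun _ => ⟨?_, ?_, v1, v2, ?_, trivial⟩⟩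
      · rintro rfl
        apply hirr 1
        rw [map_one]
        exact_mod_cast htx
      · rw [hN]
        exact box_of v3 v4 v5 v6
      · rw [← htx]
        have := congrArg (algebraMap K (AlgebraicClosure ℚ)) v7
        simpa using this
    · exact ⟨(0, 0, 0, 0), fun h => absurd h hx⟩
  choose Φ hΦ using hex
  have h1 := fib_card E Φ fun x hx => ⟨(hΦ x hx).1, (hΦ x hx).2.2.1, (hΦ x hx).2.2.2.2.1⟩
  have h2 := box_card N (E.image Φ) (by
    intro v hv
    obtain ⟨x, hx, rfl⟩ := Finset.mem_image.1 hv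
    exact (hΦ x hx).2.1)
  have h3 : (E.card : ℝ) ≤ 3 * ((E.image Φ).card : ℝ) := by exact_mod_cast h1
  have h4 : Real.exp X = B ^ 3 := by
    have e : (3 : ℝ) * Real.log B = Real.log (B ^ 3) := by
      rw [Real.log_pow]
      norm_num
    rw [hX, e, Real.exp_log (by positivity)]
  calc (E.card : ℝ) ≤ 3 * (2 * N + 1) ^ 4 := h3.trans (by gcongr)
    _ ≤ 3 * (65 * Real.exp X) ^ 4 := by
        gcongr
        linarith
    _ = 3 * 65 ^ 4 * B ^ 12 := by
        rw [h4]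
        ring

theorem vio_up (hD : S_DEG) (hI : S_IND) (hT : S_TAIL) {κ c : ℝ} (hκ : 1 / 7 < κ) :
    ∃ ν M : ℝ, 0 < ν ∧ 0 < M ∧ ∀ B : ℝ, 1 ≤ B → ∀ E : Finset (AlgebraicClosure ℚ),
      (∀ x ∈ E, Vio κ c B x) → (E.card : ℝ) ≤ M * B ^ (12 - ν) := by
  classical
  have hκ0 : 0 < κ := by linarith
  obtain ⟨lam, hlam⟩ : ∃ lam : ℝ, lam = 1 / κ := ⟨_, rfl⟩
  have hlam0 : 0 < lam := by rw [hlam]; positivity
  have hlam7 : lam < 7 := by
    rw [hlam, div_lt_iff₀ hκ0]
    linarith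
  obtain ⟨τ, hτ⟩ : ∃ τ : ℝ, τ = min (7 - lam) 1 := ⟨_, rfl⟩
  have hτ0 : 0 < τ := by rw [hτ]; exact lt_min (by linarith) one_pos
  have hτ1 : τ ≤ 1 := by rw [hτ]; exact min_le_right _ _
  have hτ7 : lam ≤ 7 - τ := by
    have : τ ≤ 7 - lam := by rw [hτ]; exact min_le_left _ _
    linarith
  obtain ⟨C1, hC1⟩ : ∃ C1 : ℝ, C1 = 21 * |c| := ⟨_, rfl⟩
  have hC10 : 0 ≤ C1 := by rw [hC1]; positivity
  obtain ⟨M1, hM1, hsmall⟩ := small3 hD hI hT (η := τ / 2) (C1 := C1) (by positivity)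
    (by linarith)
  obtain ⟨D, hD0, hfew⟩ := few_x 3 (by norm_num) (ε := τ / 4) (by positivity)
  refine ⟨3 * τ / 400, M1 + D * Real.exp C1, by positivity, by positivity, ?_⟩
  intro B hB E hE
  have hB0 : 0 < B := by linarith
  have hlB : 0 ≤ Real.log B := Real.log_nonneg hB
  obtain ⟨X, hX⟩ : ∃ X : ℝ, X = 3 * Real.log B := ⟨_, rfl⟩
  have hX0 : 0 ≤ X := by rw [hX]; positivity
  set EA := E.filter fun x => Cub X (fun K _ _ => Real.log |(NumberField.discr K : ℝ)| ≤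
    (4 - τ / 2) * X + C1) x with hEA
  set EB := E.filter fun x => x ≠ 1 ∧ Good 3 X ((3 - τ / 2) * X + C1) (x / (1 - x)) with hEB
  have hsub : E ⊆ EA ∪ EB := by
    intro x hx
    obtain ⟨K, hnf, t, htx, hK, hirr, hh, hv⟩ := hE x hx
    have h0 : t ≠ 0 := fun h => hirr 0 (by rw [h, map_zero])
    have h1 : t ≠ 1 := fun h => hirr 1 (by rw [h, map_one])
    have hsum : Real.log |(NumberField.discr K : ℝ)| + 3 * conductor ![t, 1 - t, -1] ≤
        (7 - τ) * X + C1 := by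
      have e1 : κ * (rootDisc K + conductor ![t, 1 - t, -1]) ≤ Real.log B + |c| := by
        have := neg_abs_le c
        linarith
      have e2 : rootDisc K + conductor ![t, 1 - t, -1] ≤ lam * (Real.log B + |c|) := by
        rw [hlam, div_mul_eq_mul_div, one_mul, le_div_iff₀ hκ0]
        linarith
      have e3 : rootDisc K = Real.log |(NumberField.discr K : ℝ)| / 3 := by
        unfold rootDisc
        rw [hK]
        norm_num
      have e4 : lam * (Real.log B + |c|) ≤ (7 - τ) * Real.log B + 7 * |c| := by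
        have := abs_nonneg c
        nlinarith
      rw [e3] at e2
      rw [hX, hC1]
      linarith
    by_cases hd : Real.log |(NumberField.discr K : ℝ)| ≤ (4 - τ / 2) * X + C1
    · exact Finset.mem_union_left _ (Finset.mem_filter.2 ⟨hx, K, hnf, t, htx, hK, hirr,
        by rw [hX]; linarith, hd⟩)
    · push Not at hd
      apply Finset.mem_union_right
      refine Finset.mem_filter.2 ⟨hx, ?_, ?_⟩
      · rintro rfl
        apply hirr 1
        rw [map_one]
        exact_mod_cast htx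
      · rw [← htx]
        apply good_of K t hK h0 h1
        · push_cast
          rw [hX]
          linarith
        · push_cast
          nlinarith
  have hA := hsmall X EA hX0 fun x hx => (Finset.mem_filter.1 hx).2
  have hB1 : (EB.card : ℝ) ≤ D * Real.exp C1 * Real.exp ((4 - τ / 4) * X) := by
    rw [← Finset.card_image_of_injOn (inj_div EB fun x hx => (Finset.mem_filter.1 hx).2.1)]
    refine (hfew X ((3 - τ / 2) * X + C1) _ hX0 ?_).trans (le_of_eq ?_)
    · intro y hy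
      obtain ⟨x, hx, rfl⟩ := Finset.mem_image.1 hy
      exact (Finset.mem_filter.1 hx).2.2
    · rw [mul_assoc, ← Real.exp_add]
      congr 2
      norm_num
      ring
  have hcard : (E.card : ℝ) ≤ EA.card + EB.card := by
    exact_mod_cast (Finset.card_le_card hsub).trans (Finset.card_union_le _ _)
  have hfin : B ^ (12 - 3 * τ / 400) = Real.exp ((4 - τ / 400) * X) := by
    rw [Real.rpow_def_of_pos hB0, hX]
    congr 1
    ring
  rw [hfin]
  have e1 : Real.exp ((4 - τ / 2 / 200) * X) = Real.exp ((4 - τ / 400) * X) := by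
    congr 1
    ring
  have e2 : Real.exp ((4 - τ / 4) * X) ≤ Real.exp ((4 - τ / 400) * X) := by
    apply Real.exp_le_exp.2
    nlinarith
  rw [e1] at hA
  calc (E.card : ℝ) ≤ EA.card + EB.card := hcard
    _ ≤ M1 * Real.exp ((4 - τ / 400) * X) + D * Real.exp C1 * Real.exp ((4 - τ / 400) * X) :=
        add_le_add hA (hB1.trans (by gcongr))
    _ = _ := by ring

/-- admissible coefficients -/
def Adm (v : Q4) : Prop :=
  0 < v.1 ∧ v.1 % 2 = 1 ∧ v.2.1 % 2 = 0 ∧ v.2.2.1 % 2 = 0 ∧ v.2.2.2 % 4 = 2 ∧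
    Int.gcd v.1 (v.2.1 * v.2.2.1) = 1

/-- the point attached to admissible coefficients -/
def At (C : ℝ) (T : ℝ) (v : Q4) (x : AlgebraicClosure ℚ) : Prop :=
  ∃ (K : IntermediateField ℚ (AlgebraicClosure ℚ)) (_ : NumberField K) (t : K),
    (t : AlgebraicClosure ℚ) = x ∧ Module.finrank ℚ K = 3 ∧ (∀ q : ℚ, t ≠ algebraMap ℚ K q) ∧
      (v.1 : K) * t ^ 3 + v.2.1 * t ^ 2 + v.2.2.1 * t + v.2.2.2 = 0 ∧
      W222.UABC.height ![t, 1 - t, -1] ≤ Real.log T / 3 + C

theorem height_eq {K : Type} [Field K] [NumberField K] (x : Fin 3 → K) :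
    height x = W222.UABC.height x := rfl

theorem dvd_of {a a' b b' c : ℤ} (hg : Int.gcd a (b * c) = 1) (h1 : a' * b = a * b') : a ∣ a' := by
  have h2 : IsCoprime a (b * c) := Int.isCoprime_iff_gcd_eq_one.2 hg
  have h3 : IsCoprime a b := h2.of_mul_right_left
  have k1 : a ∣ a' * b := ⟨b', h1⟩
  exact h3.dvd_of_dvd_mul_right k1

theorem at_inj (hD : S_DEG) {C T : ℝ} {p q : Q4} {x : AlgebraicClosure ℚ} (hp : Adm p)
    (hq : Adm q) (h : At C T p x) (h' : At C T q x) : p = q := by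
  obtain ⟨a, b, c, d⟩ := p
  obtain ⟨a', b', c', d'⟩ := q
  obtain ⟨p1, -, -, -, -, p2⟩ := hp
  obtain ⟨q1, -, -, -, -, q2⟩ := hq
  obtain ⟨K, hnf, t, htx, hK, hirr, he, -⟩ := h
  obtain ⟨K', hnf', t', htx', hK', hirr', he', -⟩ := h'
  simp only at p1 p2 q1 q2 he he'
  have e1 : (a' : K) * t ^ 3 + b' * t ^ 2 + c' * t + d' = 0 := by
    apply (algebraMap K (AlgebraicClosure ℚ)).injective
    have h2 : (a' : AlgebraicClosure ℚ) * x ^ 3 + b' * x ^ 2 + c' * x + d' = 0 := by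
      rw [← htx']
      have := congrArg (algebraMap K' (AlgebraicClosure ℚ)) he'
      simpa using this
    rw [← htx] at h2
    simpa using h2
  obtain ⟨k1, k2, k3⟩ := hD K hK t hirr (a' * b - a * b') (a' * c - a * c') (a' * d - a * d') (by
    push_cast
    linear_combination (a' : K) * he - (a : K) * e1)
  have k1' : a' * b = a * b' := by linarith
  have d1 := dvd_of p2 k1'
  have d2 := dvd_of q2 k1'.symm
  have haa : a = a' := by
    apply le_antisymm
    · exact Int.le_of_dvd q1 d1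
    · exact Int.le_of_dvd p1 d2
  subst haa
  have hb : b = b' := mul_left_cancel₀ p1.ne' k1'
  have hc : c = c' := mul_left_cancel₀ p1.ne' (by linarith)
  have hd : d = d' := mul_left_cancel₀ p1.ne' (by linarith)
  rw [hb, hc, hd]

theorem many (hD : S_DEG) (hE : S_EIS) (hH : S_HGT) (hC : S_CNT) : ∃ c B0 : ℝ, 0 < c ∧ 1 ≤ B0 ∧
    ∀ B : ℝ, B0 ≤ B → ∃ E : Finset (AlgebraicClosure ℚ), c * B ^ 12 ≤ (E.card : ℝ) ∧
      ∀ x ∈ E, Cub3 B x := by
  classical
  obtain ⟨C, hC0⟩ := hH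
  obtain ⟨c, hc, T0, hcnt⟩ := hC
  obtain ⟨g, hg⟩ : ∃ g : ℝ, g = Real.exp (-(3 * |C|)) := ⟨_, rfl⟩
  have hg0 : 0 < g := by rw [hg]; exact Real.exp_pos _
  refine ⟨c * (g / 2) ^ 4, (T0 + 1) / g + 1, by positivity, ?_, ?_⟩
  · have : 0 ≤ ((T0 : ℝ) + 1) / g := by positivity
    linarith
  intro B hB
  have hB1 : 1 ≤ B := by
    have : 0 ≤ ((T0 : ℝ) + 1) / g := by positivity
    linarith
  have hBpos : 0 < B := by linarith
  have hB3 : (T0 : ℝ) + 1 ≤ B ^ 3 * g := by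
    have h1 : ((T0 : ℝ) + 1) / g ≤ B := by linarith
    rw [div_le_iff₀ hg0] at h1
    have h2 : B ≤ B ^ 3 := by nlinarith [sq_nonneg (B - 1), mul_self_nonneg B]
    nlinarith
  obtain ⟨T, hT⟩ : ∃ T : ℕ, T = ⌊B ^ 3 * g⌋₊ := ⟨_, rfl⟩
  have hTle : (T : ℝ) ≤ B ^ 3 * g := by rw [hT]; exact Nat.floor_le (by positivity)
  have hone : (1 : ℝ) ≤ B ^ 3 * g := by
    have : (0 : ℝ) ≤ T0 := Nat.cast_nonneg _
    linarith
  have hTge : B ^ 3 * g / 2 ≤ T := by rw [hT]; exact half_floor hone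
  have hTT0 : T0 ≤ T := by
    rw [hT]
    exact Nat.le_floor (by linarith)
  have hT1 : 1 ≤ T := by
    rw [hT]
    exact Nat.le_floor (by push_cast; exact hone)
  have hT1r : (1 : ℝ) ≤ T := by exact_mod_cast hT1
  obtain ⟨F, hF1, hF2⟩ := hcnt T hTT0
  have hex : ∀ v : Q4, ∃ x : AlgebraicClosure ℚ, v ∈ F → At |C| T v x := by
    intro v
    by_cases hv : v ∈ F
    · obtain ⟨h1, h2, h3, h4, h5, h6, h7, h8⟩ := hF2 v hv
      obtain ⟨K, hnf, x, hK, hx, e1⟩ := hE _ _ _ _ h4 h5 h6 h7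
      refine ⟨x, fun _ => ⟨K, hnf, x, rfl, hK, hx, e1, ?_⟩⟩
      have habs : ∀ z : ℤ, |z| ≤ (T : ℤ) → |(z : ℝ)| ≤ (T : ℝ) := fun z hz => by exact_mod_cast hz
      have h9 := hC0 K v.1 v.2.1 v.2.2.1 v.2.2.2 x T hK hx hT1r e1 h8 (by
        rw [abs_of_pos (by exact_mod_cast h3)]
        exact h2) (habs _ h1.1) (habs _ h1.2.1) (habs _ h1.2.2.1) (habs _ h1.2.2.2)
      rw [height_eq] at h9
      exact h9.trans (by linarith [le_abs_self C])
    · exact ⟨0, fun h => absurd h hv⟩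
  choose φ hφ using hex
  refine ⟨F.image φ, ?_, ?_⟩
  · rw [Finset.card_image_of_injOn]
    · refine le_trans ?_ hF1
      calc c * (g / 2) ^ 4 * B ^ 12 = c * (B ^ 3 * g / 2) ^ 4 := by ring
        _ ≤ c * (T : ℝ) ^ 4 := by gcongr
    · intro p hp q hq hpq
      have h1 := hφ p hp
      have h2 := hφ q hq
      rw [hpq] at h1
      obtain ⟨-, -, p3, p4, p5, p6, p7, p8⟩ := hF2 p hp
      obtain ⟨-, -, q3, q4, q5, q6, q7, q8⟩ := hF2 q hq
      exact at_inj hD ⟨p3, p4, p5, p6, p7, p8⟩ ⟨q3, q4, q5, q6, q7, q8⟩ h1 h2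
  · intro x hx
    obtain ⟨p, hp, rfl⟩ := Finset.mem_image.1 hx
    obtain ⟨K, hnf, t, k1, k2, k3, -, k5⟩ := hφ p hp
    refine ⟨K, hnf, t, k1, k2, k3, k5.trans ?_⟩
    have h1 := Real.log_le_log (by linarith) hTle
    rw [Real.log_mul (by positivity) hg0.ne', Real.log_pow, hg, Real.log_exp] at h1
    push_cast at h1
    linarith

end Pool.Agent.K1H46.CP
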